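import Pool.Agent.PV3.Stmts

/-!
# PV3, module FCT: a polytope is the intersection of the half spaces of its facets
-/

set_option autoImplicit false

open MeasureTheory Metric Set Filter Topology Pointwise

namespace PV3.H90

open PV PV3

variable {n : ℕ}

theorem proj_inner {w : E n} (hw : ‖w‖ = 1) (x : E n) : inner ℝ (proj w x) w = (0 : ℝ) := by
  unfold proj
  rw [inner_sub_left, real_inner_smul_left, real_inner_self_eq_norm_sq, hw]
  ring

theorem proj_add_smul {w : E n} (hw : ‖w‖ = 1) (x : E n) (s : ℝ) :
    proj w (proj w x + s • w) = proj w x := by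
  conv_lhs => rw [proj]
  rw [inner_add_left, proj_inner hw, real_inner_smul_left, real_inner_self_eq_norm_sq, hw]
  simp

theorem inner_proj_add {w : E n} (hw : ‖w‖ = 1) (x : E n) (s : ℝ) :
    inner ℝ (proj w x + s • w) w = s := by
  rw [inner_add_left, proj_inner hw, real_inner_smul_left, real_inner_self_eq_norm_sq, hw]
  ring

theorem bounded_Pr {w : E n} (hw : ‖w‖ = 1) {S : Set (E n)} (hS : Bornology.IsBounded S) :
    Bornology.IsBounded (Pr w S) := by
  obtain ⟨R, hR⟩ := hS.exists_norm_le
  rw [isBounded_iff_forall_norm_le]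
  refine ⟨R + R + 1, ?_⟩
  rintro y ⟨x, hx, s, hs, rfl⟩
  have h1 : ‖proj w x‖ ≤ ‖x‖ + ‖x‖ := by
    unfold proj
    refine (norm_sub_le _ _).trans ?_
    rw [norm_smul, hw, mul_one]
    have := abs_real_inner_le_norm x w
    rw [hw, mul_one] at this
    simpa using this
  have h2 : ‖s • w‖ ≤ 1 := by
    rw [norm_smul, hw, mul_one, Real.norm_eq_abs, abs_of_nonneg hs.1]
    exact hs.2
  have h3 := hR x hx
  calc ‖proj w x + s • w‖ ≤ ‖proj w x‖ + ‖s • w‖ := norm_add_le _ _
    _ ≤ (‖x‖ + ‖x‖) + 1 := add_le_add h1 h2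
    _ ≤ R + R + 1 := by linarith

/-- The cone over a face of area zero is a null set. -/
theorem cone_null {w : E n} (hw : ‖w‖ = 1) {S : Set (E n)} (hS : Bornology.IsBounded S)
    (h0 : ar w S = 0) (a : ℝ) (ha : ∀ z ∈ S, inner ℝ z w = a) (x : E n) (m : ℕ) :
    volume {y : E n | ∃ z ∈ S, ∃ l : ℝ, 1 ≤ l ∧ l ≤ 1 + m ∧ y = x + l • (z - x)} = 0 := by
  have hv : volume (Pr w S) = 0 := by
    unfold ar vl at h0
    rw [ENNReal.toReal_eq_zero_iff] at h0
    rcases h0 with h0 | h0
    · exact h0
    · exact absurd h0 (bounded_Pr hw hS).measure_lt_top.ne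
  let g : E n → E n := fun e =>
    x + (1 + (m + 1 : ℝ) * inner ℝ e w) • (proj w e + a • w - x)
  have hg : DifferentiableOn ℝ g (Pr w S) := by
    apply Differentiable.differentiableOn
    have h1 : Differentiable ℝ fun e : E n => (inner ℝ e w : ℝ) :=
      differentiable_id.inner ℝ (differentiable_const w)
    have h2 : Differentiable ℝ fun e : E n => proj w e := by
      unfold proj
      exact differentiable_id.sub (h1.smul_const w)
    exact (differentiable_const x).add
      (((differentiable_const (1 : ℝ)).add (h1.const_mul _)).smul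
        ((h2.add (differentiable_const _)).sub (differentiable_const _)))
  have him := addHaar_image_eq_zero_of_differentiableOn_of_addHaar_eq_zero
    (volume : Measure (E n)) hg hv
  refine measure_mono_null ?_ him
  rintro y ⟨z, hz, l, hl1, hl2, rfl⟩
  refine ⟨proj w z + ((l - 1) / (m + 1)) • w, ⟨z, hz, (l - 1) / (m + 1), ⟨?_, ?_⟩, rfl⟩, ?_⟩
  · apply div_nonneg (by linarith)
    positivity
  · rw [div_le_one (by positivity)]
    linarith
  · simp only [g]
    rw [inner_proj_add hw, proj_add_smul hw]
    have h1 : (1 : ℝ) + (m + 1) * ((l - 1) / (m + 1)) = l := by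
      have : (m : ℝ) + 1 ≠ 0 := by positivity
      field_simp
      ring
    rw [h1]
    congr 2
    unfold proj
    rw [ha z hz]
    abel_nf

theorem fct : FCTStmt := by
  intro n U c hU hBd hF x hx
  by_contra hcon
  push Not at hcon
  have hPb := hBd c
  -- the violated constraints
  have hzero : ∀ w ∈ U, c w < inner ℝ x w → fa U c w = 0 := by
    intro w hw hcw
    have h1 := hcon w hw
    by_contra h2
    have h3 : 0 < fa U c w := lt_of_le_of_ne ENNReal.toReal_nonneg (Ne.symm h2)
    exact absurd hcw (not_lt.mpr (h1 h3))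
  -- the cones
  let Cn : E n → ℕ → Set (E n) := fun w m =>
    {y : E n | ∃ z ∈ Fc U c w, ∃ l : ℝ, 1 ≤ l ∧ l ≤ 1 + m ∧ y = x + l • (z - x)}
  have hnull : ∀ w ∈ U, c w < inner ℝ x w → ∀ m : ℕ, volume (Cn w m) = 0 := by
    intro w hw hcw m
    exact cone_null (hU w hw) (hPb.subset fun z hz => hz.1) (hzero w hw hcw) (c w)
      (fun z hz => hz.2) x m
  have hcover : interior (Pl U c) ⊆ ⋃ w ∈ {w | w ∈ U ∧ c w < inner ℝ x w}, ⋃ m : ℕ, Cn w m := by
    intro y hy
    have hyP : y ∈ Pl U c := interior_subset hy
    classical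
    let V : Finset (E n) := U.filter fun w => c w < inner ℝ x w
    have hV : V.Nonempty := by
      by_contra hne
      rw [Finset.not_nonempty_iff_eq_empty] at hne
      apply hx
      intro w hw
      by_contra h
      have : w ∈ V := Finset.mem_filter.mpr ⟨hw, not_le.mp h⟩
      rw [hne] at this
      exact absurd this (Finset.notMem_empty _)
    let τ : E n → ℝ := fun w => (c w - inner ℝ y w) / (inner ℝ x w - inner ℝ y w)
    obtain ⟨w, hwV, hmin⟩ := V.exists_min_image τ hV
    have hwU : w ∈ U := (Finset.mem_filter.mp hwV).1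
    have hwc : c w < inner ℝ x w := (Finset.mem_filter.mp hwV).2
    have hyw : inner ℝ y w ≤ c w := hyP w hwU
    have hden : 0 < inner ℝ x w - inner ℝ y w := by linarith
    have hτ0 : 0 ≤ τ w := div_nonneg (by linarith) hden.le
    have hτ1 : τ w < 1 := by
      rw [div_lt_one hden]
      linarith
    have hzi : ∀ w' : E n, inner ℝ (y + τ w • (x - y)) w' =
        inner ℝ y w' + τ w * (inner ℝ x w' - inner ℝ y w') := by
      intro w'
      rw [inner_add_left, real_inner_smul_left, inner_sub_left]
    have hz : y + τ w • (x - y) ∈ Fc U c w := by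
      constructor
      · intro w' hw'
        rw [hzi]
        have hyw' : inner ℝ y w' ≤ c w' := hyP w' hw'
        by_cases hc' : c w' < inner ℝ x w'
        · have hle := hmin w' (Finset.mem_filter.mpr ⟨hw', hc'⟩)
          have hden' : 0 < inner ℝ x w' - inner ℝ y w' := by linarith
          have h1 : τ w * (inner ℝ x w' - inner ℝ y w') ≤
              τ w' * (inner ℝ x w' - inner ℝ y w') := mul_le_mul_of_nonneg_right hle hden'.le
          have h2 : τ w' * (inner ℝ x w' - inner ℝ y w') = c w' - inner ℝ y w' :=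
            div_mul_cancel₀ _ hden'.ne'
          linarith
        · push Not at hc'
          nlinarith
      · rw [hzi]
        have h2 : τ w * (inner ℝ x w - inner ℝ y w) = c w - inner ℝ y w :=
          div_mul_cancel₀ _ hden.ne'
        linarith
    have hl : 0 < 1 - τ w := by linarith
    obtain ⟨m, hm⟩ := exists_nat_ge (1 / (1 - τ w))
    simp only [mem_iUnion]
    refine ⟨w, ⟨hwU, hwc⟩, m, ⟨y + τ w • (x - y), hz, 1 / (1 - τ w), ?_, by linarith, ?_⟩⟩
    · rw [le_div_iff₀ hl]
      linarith
    · have h1 : y + τ w • (x - y) - x = (1 - τ w) • (y - x) := by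
        module
      rw [h1, smul_smul, one_div, inv_mul_cancel₀ hl.ne', one_smul]
      abel
  have hzero' : volume (⋃ w ∈ {w | w ∈ U ∧ c w < inner ℝ x w}, ⋃ m : ℕ, Cn w m) = 0 := by
    have hfin : {w | w ∈ U ∧ c w < inner ℝ x w}.Countable :=
      (U.finite_toSet.subset fun w hw => hw.1).countable
    rw [measure_biUnion_null_iff hfin]
    intro w hw
    rw [measure_iUnion_null_iff]
    exact hnull w hw.1 hw.2
  have hpos : 0 < volume (interior (Pl U c)) := isOpen_interior.measure_pos volume hF
  exact absurd (measure_mono_null hcover hzero') hpos.ne'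

end PV3.H90
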